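import Mathlib

set_option autoImplicit false

namespace Pool.Agent.Helper156.OF



/-- Letters of the alphabet of the free group on `α`. -/
abbrev Lt (α : Type) := α × Bool

/-- The inverse letter. -/
def nv {α : Type} (x : Lt α) : Lt α := (x.1, !x.2)

/-- The group element of a letter. -/
def gl {α : Type} (x : Lt α) : FreeGroup α := FreeGroup.mk [x]

section basic

variable {α : Type}

@[simp] lemma nv_nv (x : Lt α) : nv (nv x) = x := by simp [nv]

@[simp] lemma nv_fst (x : Lt α) : (nv x).1 = x.1 := rfl

lemma nv_ne (x : Lt α) : nv x ≠ x := by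
  intro h
  have := congrArg Prod.snd h
  simp [nv] at this

lemma ne_nv (x : Lt α) : x ≠ nv x := fun h => nv_ne x h.symm

lemma nv_inj {x y : Lt α} : nv x = nv y ↔ x = y :=
  ⟨fun h => by rw [← nv_nv x, h, nv_nv], fun h => h ▸ rfl⟩

lemma nv_eq_iff {x y : Lt α} : nv x = y ↔ x = nv y :=
  ⟨fun h => by rw [← h, nv_nv], fun h => by rw [h, nv_nv]⟩

lemma fst_eq_iff {x y : Lt α} : x.1 = y.1 ↔ x = y ∨ x = nv y := by
  obtain ⟨i, b⟩ := x
  obtain ⟨j, c⟩ := y
  constructor
  · intro h
    simp only at h
    subst h
    cases b <;> cases c <;> simp [nv]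
  · rintro (h | h)
    · exact congrArg Prod.fst h
    · have := congrArg Prod.fst h
      simpa [nv] using this

@[simp] lemma gl_nv (x : Lt α) : gl (nv x) = (gl x)⁻¹ := by
  simp [gl, nv, FreeGroup.inv_mk, FreeGroup.invRev]

lemma gl_true (i : α) : gl (i, true) = FreeGroup.of i := rfl

lemma mk_cons (x : Lt α) (l : List (Lt α)) : FreeGroup.mk (x :: l) = gl x * FreeGroup.mk l := by
  simp [gl, FreeGroup.mul_mk]

lemma gl_inj {x y : Lt α} (h : gl x = gl y) : x = y := by
  classical
  have := congrArg FreeGroup.toWord h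
  simpa [gl, FreeGroup.toWord_mk, FreeGroup.reduce_singleton] using this

/-- The homomorphism given by images of letters. -/
def lh {H : Type} [Group H] (f : Lt α → H) : FreeGroup α →* H :=
  FreeGroup.lift (fun i => f (i, true))

lemma lh_gl {H : Type} [Group H] {f : Lt α → H} (hf : ∀ x, f (nv x) = (f x)⁻¹) (x : Lt α) :
    lh f (gl x) = f x := by
  obtain ⟨i, b⟩ := x
  cases b
  · have : ((i, false) : Lt α) = nv (i, true) := rfl
    rw [this, gl_nv, hf, map_inv, gl_true]
    simp [lh]
  · rw [gl_true]
    simp [lh]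

lemma hom_ext_gl {H : Type} [Group H] {f g : FreeGroup α →* H} (h : ∀ x, f (gl x) = g (gl x)) :
    f = g := by
  ext i
  exact h (i, true)

lemma aut_ext_gl {f g : MulAut (FreeGroup α)} (h : ∀ x, f (gl x) = g (gl x)) : f = g := by
  have : (f : FreeGroup α →* FreeGroup α) = (g : FreeGroup α →* FreeGroup α) := hom_ext_gl h
  ext x
  exact DFunLike.congr_fun this x

end basic

/-- The group of signed permutations: permutations of the letters commuting with inversion. -/
def SP (α : Type) : Subgroup (Equiv.Perm (Lt α)) where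
  carrier := {σ | ∀ x, σ (nv x) = nv (σ x)}
  mul_mem' := by
    intro a b ha hb x
    simp only [Set.mem_ofPred_eq] at ha hb
    simp [Equiv.Perm.mul_apply, hb x, ha (b x)]
  one_mem' := by
    intro x
    rfl
  inv_mem' := by
    intro a ha x
    simp only [Set.mem_ofPred_eq] at ha
    rw [Equiv.Perm.inv_eq_iff_eq, ha]
    simp

section toAut

variable {α : Type}

lemma SP.map_nv (σ : SP α) (x : Lt α) : (σ : Equiv.Perm (Lt α)) (nv x) = nv ((σ : Equiv.Perm (Lt α)) x) :=
  σ.2 x

/-- The endomorphism of the free group given by a signed permutation. -/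
def spHom (σ : SP α) : FreeGroup α →* FreeGroup α := lh (fun x => gl ((σ : Equiv.Perm (Lt α)) x))

lemma spHom_gl (σ : SP α) (x : Lt α) : spHom σ (gl x) = gl ((σ : Equiv.Perm (Lt α)) x) := by
  unfold spHom
  rw [lh_gl]
  intro y
  rw [SP.map_nv, gl_nv]

/-- The automorphism of the free group given by a signed permutation. -/
def toAut : SP α →* MulAut (FreeGroup α) where
  toFun σ := MonoidHom.toMulEquiv (spHom σ) (spHom σ⁻¹)
    (hom_ext_gl fun x => by simp [spHom_gl]) (hom_ext_gl fun x => by simp [spHom_gl])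
  map_one' := aut_ext_gl fun x => by simp [spHom_gl]
  map_mul' σ τ := aut_ext_gl fun x => by simp [spHom_gl]

@[simp] lemma toAut_gl (σ : SP α) (x : Lt α) : toAut σ (gl x) = gl ((σ : Equiv.Perm (Lt α)) x) :=
  spHom_gl σ x

end toAut

section elem

variable {α : Type} [DecidableEq α]

/-- Images of letters under the elementary automorphism `x ↦ x a`. -/
def eFun (x a y : Lt α) : FreeGroup α :=
  if x.1 = a.1 then gl y else if y = x then gl x * gl a else if y = nv x then (gl a)⁻¹ * (gl x)⁻¹
    else gl y

lemma eFun_nv (x a y : Lt α) : eFun x a (nv y) = (eFun x a y)⁻¹ := by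
  unfold eFun
  by_cases h : x.1 = a.1
  · simp [h]
  · simp only [h, if_false]
    by_cases h1 : y = x
    · subst h1
      simp [nv_ne]
    · by_cases h2 : y = nv x
      · subst h2
        simp [nv_ne]
      · have h3 : nv y ≠ x := fun h => h2 (by rw [← h, nv_nv])
        have h4 : nv y ≠ nv x := fun h => h1 (nv_inj.1 h)
        simp [h1, h2, h3, h4]

/-- The elementary endomorphism `x ↦ x a` (identity if `x = a` or `x = a⁻¹`). -/
def eHom (x a : Lt α) : FreeGroup α →* FreeGroup α := lh (eFun x a)

lemma eHom_gl (x a y : Lt α) : eHom x a (gl y) = eFun x a y := lh_gl (eFun_nv x a) y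

lemma eHom_comp (x a : Lt α) : (eHom x (nv a)).comp (eHom x a) = MonoidHom.id _ := by
  refine hom_ext_gl fun y => ?_
  simp only [MonoidHom.comp_apply, eHom_gl, MonoidHom.id_apply]
  unfold eFun
  by_cases h : x.1 = a.1
  · simp only [h, if_true]
    rw [eHom_gl]
    unfold eFun
    simp [h]
  · have ha : a ≠ x := fun h' => h (h' ▸ rfl)
    have ha' : a ≠ nv x := fun h' => h (h' ▸ rfl)
    simp only [h, if_false]
    by_cases h1 : y = x
    · subst h1
      simp only [if_true, map_mul, eHom_gl]
      unfold eFun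
      simp [h, ha, ha']
    · by_cases h2 : y = nv x
      · subst h2
        simp only [nv_ne, if_false, if_true, map_mul, map_inv, eHom_gl]
        unfold eFun
        simp [h, ha, ha']
      · simp only [h1, h2, if_false, eHom_gl]
        unfold eFun
        simp [h1, h2]

/-- The elementary automorphism `x ↦ x a` (identity if `x = a` or `x = a⁻¹`). -/
def eAut (x a : Lt α) : MulAut (FreeGroup α) :=
  MonoidHom.toMulEquiv (eHom x a) (eHom x (nv a)) (eHom_comp x a) (by
    have := eHom_comp x (nv a)
    rwa [nv_nv] at this)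

@[simp] lemma eAut_gl (x a y : Lt α) : eAut x a (gl y) = eFun x a y := eHom_gl x a y

/-- Signed permutations and elementary automorphisms. -/
def genSet (α : Type) [DecidableEq α] : Set (MulAut (FreeGroup α)) :=
  Set.range (toAut : SP α →* MulAut (FreeGroup α)) ∪ {φ | ∃ x a : Lt α, x.1 ≠ a.1 ∧ φ = eAut x a}

end elem

end Pool.Agent.Helper156.OF
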